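import Pool.Agent.N587.UG.Main
import Pool.Agent.N587.OX.Asym

set_option autoImplicit false

/-!
# Unique games: Turing reductions of constant depth have exponential size

The definitions used in the statement are in `Pool/Agent/N587/OT/Defs.lean` (`OCircuit`, its runs and
`OCircuit.Parity`), `Pool/Agent/N587/UG/Defs.lean` (games, `Yes`, `No`, `OracleCircuit`) and
`Pool/Agent/H568R2/Defs.lean` (`Circuit`).

For no `q`, `ε` and `δ` with `ε + δ < 1` is the problem `UG_q(ε, δ)` hard under nonuniform Turing
reductions of constant depth (with AND and OR gates of unbounded fan-in, NOT gates and any number of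
adaptive oracle queries of any length) and of polynomial or quasipolynomial size, or of size
`2 ^ (n ^ c)` with a small `c`: not even the parity of `n` bits can be computed in this way (parts 1
and 2). If the number `k` of the oracle gates is a small power of `n`, then exponential size is
necessary also if the oracle gates are asked one after the other, so that there are `k` levels of
oracle gates with gates of constant depth between them, and slots of the queries may be empty
(part 3).

Idea of the proof of parts 1 and 2. Level by level, the circuit is restricted at random such that all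
gates get shallow decision trees and the oracle gates get answers which are consistent with the
promise problem. The main point is a switching lemma for words (`Pool/Agent/N587/OX/Gs.lean`): if
every symbol of a word of `m` symbols has a decision tree of depth `D`, then after a random
restriction with star probability `c γ / D`, except with probability `2 ^ (-u)`, some decision tree of
depth `u` settles all but less than `γ m` of the symbols (in contrast to the usual switching lemma
for one function the number of the symbols is arbitrary; the tree asks for `O(u / γ)` symbols which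
are chosen at random). With `γ = 1 - ε - δ`, below each of its leaves the query cannot change from a
yes-instance to a no-instance, and there is an answer of depth `u` which is right. Equal queries must
get equal answers; that two gates ask the same word is a conjunction over the symbols of conditions
of small depth, and this is simplified by a further restriction.

Idea of the proof of part 3. The value of a game changes little if few constraints are
changed. Fix a restriction under which all gates have decision trees of small depth `s`, for all
`2 ^ k` vectors of answers of the oracle gates. Choose the answers of the oracle gates one after the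
other by thresholds in the interval `(δ, 1 - ε]` (equal queries get equal answers), such that the
vector of the answers at `x` seldom changes when one variable of `x` is flipped. Every such vector
comes from an oracle for the promise problem, and so the output is the parity; but for fixed answers
the output depends on at most `s` variables at every point.
-/

namespace Pool.Agent.Results.MP_325f1f_lc.ConstantDepthTuring

open Finset DomAC0 Pool.Agent.N587.UG Pool.Agent.N587.OT

theorem size_eq {U V : Type} {q l m : ℕ} (dec : (Fin l → Bool) → Option (Con U V q))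
    (a : Fin m → Fin l → Bool) (h : ∀ i, dec (a i) ≠ none) : size (fun i => dec (a i)) = m := by
  classical
  unfold size
  rw [filter_true_of_mem fun i _ => h i, card_univ, Fintype.card_fin]

theorem gap {U V : Type} {q l m : ℕ} (dec : (Fin l → Bool) → Option (Con U V q)) {ε δ : ℝ}
    {a b : Fin m → Fin l → Bool} (ha : (∀ i, dec (a i) ≠ none) ∧ Yes ε fun i => dec (a i))
    (hb : (∀ i, dec (b i) ≠ none) ∧ No δ fun i => dec (b i)) :
    by classical exact (1 - ε - δ) * m ≤ ((univ.filter fun i => a i ≠ b i).card : ℝ) := by
  classical
  obtain ⟨ha1, ha2, f, g, hfg⟩ := ha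
  obtain ⟨hb1, hb2, hno⟩ := hb
  rw [size_eq dec a ha1] at hfg
  have hno' := hno f g
  rw [size_eq dec b hb1] at hno'
  have h3 := differ a b dec (fun c => c.2.2 (f c.1) = g c.2.1) (u := (1 - ε) * m)
    (v := δ * m) (by
      refine hfg.trans (le_of_eq ?_)
      unfold nsat
      congr!) (by
      refine le_trans (le_of_eq ?_) hno'
      unfold nsat
      congr!)
  refine (le_of_eq (by ring)).trans (h3.trans (le_of_eq ?_))
  congr!

/-- Let `C` be a circuit with `n` inputs, `s` gates (oracle gates among them) and depth at most `h`
whose queries are words of symbols of `l ≥ 1` bits, and let `dec` be any map which decodes symbols to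
constraints of unique games with the alphabet `[q]`. Let `Y` and `Z` be sets of words such that every
word in `Y` encodes a game (a nonempty list of constraints, one for each symbol) of value at least
`1 - ε` and every word in `Z` a game of value at most `δ`, where `ε, δ ≥ 0` and `ε + δ < 1`. Suppose
that `C` computes the parity of its input from all oracles which accept the words in `Y` and reject
the words in `Z`. Let `γ = 1 - ε - δ`.
(1) If `s ≤ 2 ^ u` and `l ≤ γ 2 ^ u` with `u ≥ 1`, then `n γ ^ h ≤ (2 ^ 60 l u ^ 3) ^ h * 3 u`.
(2) For every depth `h` there are `e ≥ 1` and `N₀` such that `s > 2 ^ (n ^ (1 / (3 h + 2)))` if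
`n ≥ N₀`, `l ^ e ≤ n` and `γ ^ e * n ≥ 1`.
(3) For every `h` there is `X₀` such that the following holds for every `q ≥ 1`, all `ε, δ ≥ 0`
with `ε + δ < 1`, and all vertex sets `U` and `V`. Let `R` be a circuit for the parity of `N` bits
with `k` oracle gates for the problem to distinguish unique games of value at least `1 - ε` from
unique games of value at most `δ`, whose queries are games with at most `M` constraints in `M`
slots of `B` bits, with at most `h` levels of AND, OR and NOT gates (of unbounded fan-in) between
inputs, oracle gates and the output. If `X = (1 - ε - δ) N / (k ^ 2 B) ≥ X₀`, then `R` has at least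
`2 ^ (X ^ (1 / (h + 1)) / 100 - k)` gates. -/
theorem result :
    (∀ (n s l h u q : ℕ) (U V : Type) (C : OCircuit n s l h)
      (dec : (Fin l → Bool) → Option (Con U V q)) (ε δ : ℝ)
      (Y Z : (m : ℕ) → (Fin m → Fin l → Bool) → Prop), 1 ≤ l → 0 ≤ ε → 0 ≤ δ → ε + δ < 1 →
      (∀ m a, Y m a → (∀ i, dec (a i) ≠ none) ∧ Yes ε fun i => dec (a i)) →
      (∀ m a, Z m a → (∀ i, dec (a i) ≠ none) ∧ No δ fun i => dec (a i)) → C.Parity Y Z →
      1 ≤ u → s ≤ 2 ^ u → (l : ℝ) ≤ (1 - ε - δ) * 2 ^ u →
      n * (1 - ε - δ) ^ h ≤ (2 ^ 60 * (l * u ^ 3)) ^ h * (3 * u)) ∧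
    (∀ h : ℕ, ∃ e N₀ : ℕ, 1 ≤ e ∧ ∀ (n s l q : ℕ) (U V : Type) (C : OCircuit n s l h)
      (dec : (Fin l → Bool) → Option (Con U V q)) (ε δ : ℝ)
      (Y Z : (m : ℕ) → (Fin m → Fin l → Bool) → Prop), 1 ≤ l → 0 ≤ ε → 0 ≤ δ → ε + δ < 1 →
      (∀ m a, Y m a → (∀ i, dec (a i) ≠ none) ∧ Yes ε fun i => dec (a i)) →
      (∀ m a, Z m a → (∀ i, dec (a i) ≠ none) ∧ No δ fun i => dec (a i)) → C.Parity Y Z →
      N₀ ≤ n → l ^ e ≤ n → 1 ≤ (1 - ε - δ) ^ e * n →
      (2 : ℝ) ^ ((n : ℝ) ^ (1 / (3 * h + 2 : ℝ))) < s) ∧
    (∀ h : ℕ, ∃ X₀ : ℝ, ∀ (q N k M B : ℕ) (U V : Type) (R : OracleCircuit N k M B U V q)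
      (ε δ : ℝ), 1 ≤ q → 1 ≤ k → 1 ≤ B → R.Levels h → R.Acyclic →
      0 ≤ ε → 0 ≤ δ → ε + δ < 1 → R.Parity ε δ →
      X₀ ≤ (1 - ε - δ) * N / (k ^ 2 * B) →
      (2 : ℝ) ^ (((1 - ε - δ) * N / (k ^ 2 * B)) ^ (1 / (h + 1 : ℝ)) / 100) ≤
        2 ^ k * R.C.size) := by
  refine ⟨?_, ?_, ?_⟩
  · intro n s l h u q U V C dec ε δ Y Z hl hε0 hδ0 hδ1 hY hZ hpar hu hs hlu
    refine Pool.Agent.N587.OX.parity_bound (C := C) hu hs hl (by linarith) (by linarith) hlu
      (fun m a b ha hb => gap dec (hY m a ha) (hZ m b hb)) (fun m a ha => ?_) hpar
    obtain ⟨ha1, ha2, _⟩ := hY m a ha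
    rw [size_eq dec a ha1] at ha2
    exact ha2
  · intro h
    obtain ⟨e, N₀, he, hN⟩ := Pool.Agent.N587.OX.asym h
    refine ⟨e, N₀, he, ?_⟩
    intro n s l q U V C dec ε δ Y Z hl hε0 hδ0 hδ1 hY hZ hpar hn hle hγ
    by_contra hcon
    push Not at hcon
    refine hN C (γ := 1 - ε - δ) hn hcon hl hle (by linarith) (by linarith) hγ
      (fun m a b ha hb => gap dec (hY m a ha) (hZ m b hb)) (fun m a ha => ?_) hpar
    obtain ⟨ha1, ha2, _⟩ := hY m a ha
    rw [size_eq dec a ha1] at ha2
    exact ha2
  · intro h
    obtain ⟨X₀, hX⟩ := Pool.Agent.N587.UG.main h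
    refine ⟨X₀, ?_⟩
    intro q N k M B U V R ε δ h1 h2 h3 h4 h5 h6 h7 h8 h9 h10
    exact hX R h1 h2 h3 h4 h5 h6 h7 h8 h9 h10

end Pool.Agent.Results.MP_325f1f_lc.ConstantDepthTuring
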