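import Pool.Agent.N625.UF.Game

/-!
# Unique games with imperfect completeness and circuits with unreliable negations

A unique game with `N + N` vertices and alphabet `[q]` is given by bits: for all left vertices `u`,
right vertices `v`, permutations `π` of the alphabet and tags `j < K`, the bit of the position
`((u, v, π), j)` tells whether the game has the constraint that `π` maps the label of `u` to the
label of `v`, with the tag `j`. Each constraint has at most one tag; the tag has no meaning.

The model: randomised circuits whose inputs are these bits and their negations, with gates that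
compute arbitrary nondecreasing real functions of two arguments. All circuits with AND, OR and NOT
gates can be brought into this form by doubling their size. No bound on the depth is assumed. A
randomised circuit is a finite nonempty family of circuits from which one is chosen uniformly at
random.

Faults: each negated input (the information that there is no such constraint at a position) is stuck
at `0`, independently with probability `1 / D`. The other inputs are reliable.

Result: for all `q ≥ 2` and all soundness parameters `δ > 1 / q`, for all large `N` there is a
number `m` of constraints such that for all `ε ≥ N ^ (-1/139)`, all `D` and all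
`K ≥ D (2 log N + log q! + 4)` the following holds. Randomised circuits which accept the games with
`m` constraints and value at most `δ` with probability at least `4 / 5` under faults, and the games
with at least `m` constraints of which some labeling violates at most `ε m` with probability at most
`1 / 4` without faults, need `(2 ^ (N ^ (1 / 139)) - 2) / 3` gates.

* So exponential size is necessary for separating value at least `1 - ε` from value at most `δ`, for
  every `ε > 0` and every `δ > 1 / q`, if an arbitrarily small constant fraction `1 / D` of the
  negated inputs is unreliable; and `K = O(D log N)` tags are enough for this. Without faults this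
  would be an unconditional form of the conjecture (for circuits, instead of NP-hardness), with the
  best possible dependence of the alphabet on the soundness.
* For `D = 1` all negated inputs are faulty: this is the case of monotone circuits, the starting
  result `MonotoneCircuits`, which is used in the proof.
* For `ε = 0` (perfect completeness) the statement fails even for `D = 1`, since propagation of
  labels is done by monotone circuits of polynomial size.

The proof: the constraints of a game without tags get random tags. The tagged game shows only the
tags of its constraints, and the positions that the other constraints would get are as good as random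
faulty inputs. So all negated inputs that depend on the game without tags can be replaced by `0`, and
this gives a monotone randomised circuit for the games without tags.
-/

set_option autoImplicit false

namespace Pool.Agent.Results.MP_325f1f_lc.FaultyNegations

open Finset

/-- A circuit with the gates `0, ..., s - 1` whose inputs are the bits of the positions `e` in `E` and
their negations: `(e, true)` stands for the bit of `e` and `(e, false)` for its negation. Gate `i`
has `w i ≤ 2` inputs, namely `a i j`, each a literal (`0` or `1`) or an earlier gate; it computes a
nondecreasing function `op i` of real numbers, and its value on the values `y` of the literals is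
`val y i`. The circuit accepts if the value of gate `out` is at least `τ`. -/
structure LiteralCircuit (E : Type) where
  s : ℕ
  w : Fin s → ℕ
  a : (i : Fin s) → Fin (w i) → (E × Bool) ⊕ Fin s
  op : (i : Fin s) → (Fin (w i) → ℝ) → ℝ
  val : (E × Bool → Bool) → Fin s → ℝ
  out : Fin s
  τ : ℝ
  earlier : ∀ i j m, a i j = Sum.inr m → m < i
  mono : ∀ i, w i ≤ 2 ∧ Monotone (op i)
  spec : ∀ y i, val y i = op i (fun j =>
    Sum.elim (fun p => if y p = true then (1 : ℝ) else 0) (val y) (a i j))

/-- The positions `((u, v, π), j)`: a constraint between the left vertex `u` and the right vertex `v`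
with the permutation `π`, which shall map the label of `u` to the label of `v`, and the tag `j`. -/
abbrev Position (N q K : ℕ) : Type := (Fin N × Fin N × Equiv.Perm (Fin q)) × Fin K

/-- The labeling satisfies the constraint. -/
def Satisfies {N q K : ℕ} (A B : Fin N → Fin q) (e : Position N q K) : Prop :=
  e.1.2.2 (A e.1.1) = B e.1.2.1

/-- Every constraint of the game (the set of the positions `e` with `x e = true`) has only one
tag. -/
def TaggedOnce {N q K : ℕ} (x : Position N q K → Bool) : Prop :=
  ∀ e e', x e = true → x e' = true → e.1 = e'.1 → e = e'

open Classical in
/-- Games with exactly `m` constraints and value at most `δ`: every labeling satisfies at most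
`δ m` of the constraints. -/
def LowValue {N q K : ℕ} (m : ℕ) (δ : ℝ) (x : Position N q K → Bool) : Prop :=
  TaggedOnce x ∧ (univ.filter fun e => x e = true).card = m ∧
    ∀ A B : Fin N → Fin q,
      ((univ.filter fun e => x e = true ∧ Satisfies A B e).card : ℝ) ≤ δ * m

open Classical in
/-- Games with at least `m` constraints, of which some labeling violates at most `ε m` (so the value
is at least `1 - ε`). -/
def HighValue {N q K : ℕ} (m : ℕ) (ε : ℝ) (x : Position N q K → Bool) : Prop :=
  TaggedOnce x ∧ m ≤ (univ.filter fun e => x e = true).card ∧
    ∃ A B : Fin N → Fin q,
      ((univ.filter fun e => x e = true ∧ ¬ Satisfies A B e).card : ℝ) ≤ ε * m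

open Classical in
/-- The values of the literals on the game `x` if the negated inputs of the positions in `Z` are
stuck at `0`. -/
noncomputable def literals {E : Type} (x : E → Bool) (Z : Set E) : E × Bool → Bool :=
  fun p => if p.2 = true then x p.1 else if p.1 ∈ Z then false else !x p.1

/-- The circuit accepts the game `x` if the negated inputs of the positions in `Z` are stuck at
`0`. -/
def LiteralCircuit.Accepts {E : Type} (C : LiteralCircuit E) (x : E → Bool) (Z : Set E) : Prop :=
  C.τ ≤ C.val (literals x Z) C.out

/-- The probability that the game `x` is accepted by a circuit that is chosen uniformly at random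
from the family `C`, without faults. -/
noncomputable def acceptance {E R : Type} (C : R → LiteralCircuit E) (x : E → Bool) : ℝ :=
  (Nat.card {ρ : R // (C ρ).Accepts x ∅} : ℝ) / Nat.card R

/-- The probability that the game `x` is accepted by a circuit that is chosen uniformly at random
from the family `C`, if each negated input is stuck at `0` independently with probability `1 / D`
(each position `e` gets a random number `f e` from `0` to `D - 1`, and `0` means a fault). -/
noncomputable def faultyAcceptance {E R : Type} (C : R → LiteralCircuit E) (D : ℕ)
    (x : E → Bool) : ℝ :=
  (Nat.card {v : R × (E → Fin D) // (C v.1).Accepts x {e | (v.2 e : ℕ) = 0}} : ℝ) /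
    Nat.card (R × (E → Fin D))

/-- Let `q ≥ 2` and `δ > 1 / q`. For all large `N` there is `m > 0` such that for all
`ε ≥ N ^ (-1/139)`, all `D ≥ 1` and all `K ≥ D (2 log N + log q! + 4)` the following holds. If a
finite nonempty family of circuits on literals with nondecreasing real gates of fan-in at most two
and with at most `s` gates accepts every game (with `N + N` vertices, alphabet `Fin q` and tags
`j < K` at the constraints) with `m` constraints and value at most `δ` with probability at least
`4 / 5`, even if each negated input is stuck at `0` independently with probability `1 / D`, and every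
game with at least `m` constraints of which some labeling violates at most `ε m` with probability at
most `1 / 4` (without faults), then `2 ^ (N ^ (1 / 139)) ≤ 3 s + 2`. -/
theorem result (q : ℕ) (hq : 2 ≤ q) (δ : ℝ) (hδ : 1 / (q : ℝ) < δ) :
    ∃ N0 : ℕ, ∀ N : ℕ, N0 ≤ N → ∃ m : ℕ, 0 < m ∧
      ∀ ε : ℝ, (N : ℝ) ^ (-(1 / 139) : ℝ) ≤ ε → ∀ D K : ℕ, 1 ≤ D →
      D * (2 * Real.log N + Real.log (q.factorial) + 4) ≤ K →
      ∀ (R : Type) [Finite R] [Nonempty R] (C : R → LiteralCircuit (Position N q K)) (s : ℕ),
        (∀ ρ, (C ρ).s ≤ s) →
        (∀ x, LowValue m δ x → 4 / 5 ≤ faultyAcceptance C D x) →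
        (∀ x, HighValue m ε x → acceptance C x ≤ 1 / 4) →
        (2 : ℝ) ^ ((N : ℝ) ^ (1 / 139 : ℝ)) ≤ 3 * s + 2 := by
  classical
  obtain ⟨N0, H⟩ := Pool.Agent.N625.UF.ug_fault q (by omega) δ hδ
  refine ⟨N0, fun N hN => ?_⟩
  obtain ⟨m, hm, H⟩ := H N hN
  refine ⟨m, hm, fun ε hε D K hD hK R _ _ C s hs h1 h2 => ?_⟩
  let _ : Fintype R := Fintype.ofFinite R
  have hR : (0 : ℝ) < Fintype.card R := by exact_mod_cast Fintype.card_pos
  have hDR : (0 : ℝ) < D := by exact_mod_cast hD
  have hlit : ∀ (x : Position N q K → Bool) (Z : Set (Position N q K)),
      Pool.Agent.Y630.TF.lit x Z = literals x Z := by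
    intro x Z
    funext p
    unfold Pool.Agent.Y630.TF.lit literals
    by_cases hq : p.2 = true
    · rw [if_pos hq, if_pos hq]
    · rw [if_neg hq, if_neg hq]
      by_cases hZ : p.1 ∈ Z
      · simp [hZ]
      · simp [hZ]
  set C' : R → Pool.Agent.W969.MC.RC (Position N q K × Bool) := fun ρ => ⟨(C ρ).s, ∅, (C ρ).w,
    (C ρ).a, (C ρ).op, fun _ _ => 0, (C ρ).val, (C ρ).out, (C ρ).τ, (C ρ).earlier,
    fun i _ => (C ρ).mono i, fun i hi => absurd hi (Finset.notMem_empty i), (C ρ).spec⟩ with hC'
  refine H ε hε D K hD hK R C' s (fun _ => rfl) hs (fun x hx => ?_) (fun x hx => ?_)
  · have h3 := h1 x hx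
    unfold faultyAcceptance at h3
    rw [le_div_iff₀ (by
      rw [Nat.card_eq_fintype_card, Fintype.card_prod, Fintype.card_fun, Fintype.card_fin]
      push_cast
      positivity)] at h3
    rw [Nat.card_eq_fintype_card (α := R × (Position N q K → Fin D)), Fintype.card_prod,
      Fintype.card_fun, Fintype.card_fin] at h3
    refine (le_of_eq ?_).trans (h3.trans (le_of_eq ?_))
    · push_cast
      rfl
    congr 1
    show Nat.card ↥{v : R × (Position N q K → Fin D) |
      (C v.1).Accepts x {c | (v.2 c : ℕ) = 0}} = _
    rw [Nat.card_coe_set_eq]
    congr 1
    ext v
    show (C v.1).τ ≤ (C v.1).val (literals x {c | (v.2 c : ℕ) = 0}) (C v.1).out ↔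
      (C v.1).τ ≤ (C v.1).val (Pool.Agent.Y630.TF.lit x (Pool.Agent.Y630.NW.Flt v.2)) (C v.1).out
    rw [hlit]
    rfl
  · have h3 := h2 x hx
    unfold acceptance at h3
    rw [div_le_iff₀ (by rw [Nat.card_eq_fintype_card]; exact hR),
      Nat.card_eq_fintype_card (α := R)] at h3
    refine (le_of_eq ?_).trans h3
    congr 1
    show _ = Nat.card ↥{ρ : R | (C ρ).Accepts x ∅}
    rw [Nat.card_coe_set_eq]
    congr 1
    ext ρ
    show (C ρ).τ ≤ (C ρ).val (Pool.Agent.Y630.TF.lit x ∅) (C ρ).out ↔
      (C ρ).τ ≤ (C ρ).val (literals x ∅) (C ρ).out
    rw [hlit]

end Pool.Agent.Results.MP_325f1f_lc.FaultyNegations
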