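import Pool.Agent.N625.US.Red

/-!
# Local reductions from gap 3-SAT to unique games must be large

The definitions used in the statement are `Represents`, `violated`, `Reads`, `SatOn` in
`Pool/Agent/TH700/UG/Defs.lean`, and `Clause`, `Satisfies`, `falsified` in
`Pool/Agent/W888/GX/Mix.lean`.

All known reductions from gap 3-SAT to Label Cover and its relatives are local: for every assignment
there is an honest labeling, each label of which depends on few of the variables (those of a few
clauses, in some encoding), and that the honest labeling of a satisfying assignment violates at most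
a fraction `ε` of the edges is seen locally, in gadgets which contain few of the clauses.
`Represents F D ε s t π` says this for the formula `F` and the unique game with the edges
`(s e, t e)` and permutations `π e`.

The theorem: for some formulas `F` in `n` variables with `O(n)` clauses, at most a fraction
`7 / 8 + ρ` of which can be satisfied, every unique game which represents `F` with locality `D` and
completeness `1 - ε`

* has more than `(c n / (D log (2 / γ))) ^ (1 / r)` vertices if its value is less than `1 - γ`, for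
  all `r ≤ 1` with `2 ^ 30 ε log (2 / r) ≤ r γ ^ 2`, that is for `r` of the order
  `(ε / γ ^ 2) log (γ ^ 2 / ε)`;
* has more than `(c n / D) ^ (1 / (9 x log (2 / x)))` left vertices if its value is less than
  `e ^ (-l) / 2 ^ 19` and `e ^ l ≤ c n / D`, where `e ^ (-η) = 1 - ε` and
  `x = 2 ^ 20 η / l ≤ 1 / 2`.

So local reductions from gap 3-SAT which prove hardness of unique games with completeness `1 - ε` and
soundness `δ` need size at least `n ^ (c' / (ε log (1 / ε)))` for fixed `δ`, and
`n ^ (c' y / log y)`, `y = log (1 / δ) / ε`, for small `δ`; and in a reduction of size `n ^ a` some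
label must depend on `n ^ (1 - o(1))` variables if `a` is fixed and `ε → 0`. This is unconditional;
the bound for general reductions that follows from subexponential algorithms needs the exponential
time hypothesis.

Proof: for random formulas there is a pseudo-expectation of linear degree which satisfies all
clauses. Composed with the honest labelings it is a solution of level `n / D`, up to a constant, of
the mixed hierarchy, of value at least `1 - ε`. Now use the rounding theorems of `SharpTradeoff` and
`SmallSoundness`.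
-/

namespace Pool.Agent.Results.MP_325f1f_lc.LocalReductions

open Finset Pool.Agent.W888.GX Pool.Agent.TH700.UG

/-- For every `ρ > 0` there are `M` and `c > 0` such that for all large `n` there is a formula `F`
with at least `n` and at most `M n` clauses, with three literals each, over `n` variables, every
assignment of which falsifies at least a fraction `1 / 8 - ρ` of the clauses, and with the following
property. Let `D ≥ 1`, and consider a unique game with left vertices `U`, right vertices `V`, labels
`A` and edges `(s e, t e)` with permutations `π e`.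

(1) Let `0 < ε`, `0 < γ < 1`, `0 < r ≤ 1` and `2 ^ 30 ε log (2 / r) ≤ r γ ^ 2`. If the game
represents `F` with locality `D` and completeness `1 - ε`, and every labeling satisfies less than a
fraction `1 - γ` of the edges, then `|U| + |V| > (c n / (D log (2 / γ))) ^ (1 / r)`.

(2) Let `0 < η`, `0 < l`, `e ^ l ≤ c n / D` and `x = 2 ^ 20 η / l ≤ 1 / 2`. If the game represents
`F` with locality `D` and completeness `e ^ (-η)`, and every labeling satisfies less than a fraction
`e ^ (-l) / 2 ^ 19` of the edges, then `|U| > (c n / D) ^ (1 / (9 x log (2 / x)))`. -/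
theorem result : ∀ ρ : ℝ, 0 < ρ →
    ∃ M : ℕ, 1 ≤ M ∧ ∃ c : ℝ, 0 < c ∧ ∃ n₀ : ℕ, ∀ n : ℕ, n₀ ≤ n →
      ∃ (I : Type) (_ : Fintype I) (F : I → Clause 3 n),
        n ≤ Fintype.card I ∧ Fintype.card I ≤ M * n ∧
        (∀ z, (1 / 8 - ρ) * (Fintype.card I : ℝ) ≤ (falsified F z : ℝ)) ∧
        ∀ (D : ℕ) (U V E A : Type) [Fintype U] [Fintype V] [Fintype E] [Fintype A]
          [DecidableEq A] (s : E → U) (t : E → V) (π : E → Equiv.Perm A), 1 ≤ D →
          (∀ ε γ r : ℝ, 0 < ε → 0 < γ → γ < 1 → 0 < r → r ≤ 1 →
            2 ^ 30 * (ε * Real.log (2 / r)) ≤ r * γ ^ 2 →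
            Represents F D ε (fun e => (Sum.inl (s e) : U ⊕ V)) (fun e => Sum.inr (t e)) π →
            (∀ (f : U → A) (g : V → A),
              ((univ.filter fun e => π e (f (s e)) = g (t e)).card : ℝ) <
                (1 - γ) * Fintype.card E) →
            (c * n / (D * Real.log (2 / γ))) ^ (1 / r) < Fintype.card U + Fintype.card V) ∧
          (∀ η l x : ℝ, 0 < η → 0 < l → Real.exp l ≤ c * n / D → x = 2 ^ 20 * η / l →
            x ≤ 1 / 2 →
            Represents F D (1 - Real.exp (-η)) (fun e => (Sum.inl (s e) : U ⊕ V))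
              (fun e => Sum.inr (t e)) π →
            (∀ (f : U → A) (g : V → A),
              ((univ.filter fun e => π e (f (s e)) = g (t e)).card : ℝ) <
                Real.exp (-l) / 2 ^ 19 * Fintype.card E) →
            (c * n / D) ^ (1 / (9 * (x * Real.log (2 / x)))) < Fintype.card U) := by
  intro ρ hρ
  obtain ⟨M, hM, c0, hc0, n0, hn0⟩ := Pool.Agent.TH843.LR.exists_formula_card ρ hρ
  obtain ⟨c, hc⟩ : ∃ c : ℝ, c = c0 / 2 ^ 32 := ⟨_, rfl⟩
  have hcpos : 0 < c := by rw [hc]; positivity
  have hc0c : c0 = 2 ^ 32 * c := by rw [hc]; ring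
  refine ⟨M, hM, c, hcpos, n0, fun n hn => ?_⟩
  obtain ⟨I, hI, F, D0, L, hcard0, hcard, hfar, hD0, hL, hF⟩ := hn0 n hn
  refine ⟨I, hI, F, hcard0, hcard, hfar, ?_⟩
  intro D U V E A _ _ _ _ _ s t π hD
  classical
  have hDr : (1 : ℝ) ≤ D := by exact_mod_cast hD
  have hD0' : (0 : ℝ) < D := by linarith
  constructor
  · intro ε γ r hε hγ hγ1 hr hr1 hεγ hR hno
    by_contra hcon
    push Not at hcon
    obtain ⟨enc, P, hP, T, g, henc, hT, hv⟩ := hR
    have hE : (0 : ℝ) < Fintype.card E := by
      by_contra h
      have h1 : (Fintype.card E : ℝ) = 0 := le_antisymm (not_lt.1 h) (Nat.cast_nonneg _)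
      have hno' := hno (fun u => enc 0 (Sum.inl u)) (fun v => enc 0 (Sum.inr v))
      rw [h1, mul_zero] at hno'
      exact absurd hno' (not_lt.2 (Nat.cast_nonneg _))
    obtain ⟨e0⟩ : Nonempty E := by
      rw [← Fintype.card_pos_iff]
      exact_mod_cast hE
    have hlog : 0 < Real.log (2 / γ) := Real.log_pos (by rw [lt_div_iff₀ hγ]; linarith)
    have hlog2 : Real.log 2 ≤ Real.log (2 / γ) :=
      Real.log_le_log (by norm_num) (by rw [le_div_iff₀ hγ]; linarith)
    have hl2 := Real.log_two_gt_d9
    have hUV : (1 : ℝ) ≤ Fintype.card (U ⊕ V) := by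
      have : 0 < Fintype.card (U ⊕ V) := Fintype.card_pos_iff.2 ⟨Sum.inl (s e0)⟩
      exact_mod_cast this
    have hUVs : (Fintype.card (U ⊕ V) : ℝ) = Fintype.card U + Fintype.card V := by
      rw [Fintype.card_sum]
      push_cast
      rfl
    rw [← hUVs] at hcon
    have hb0 : 0 ≤ c * n / (D * Real.log (2 / γ)) := by positivity
    have hpow : (Fintype.card (U ⊕ V) : ℝ) ^ r ≤ c * n / (D * Real.log (2 / γ)) := by
      calc (Fintype.card (U ⊕ V) : ℝ) ^ r ≤
            ((c * n / (D * Real.log (2 / γ))) ^ (1 / r)) ^ r :=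
            Real.rpow_le_rpow (by linarith) hcon hr.le
        _ = _ := by rw [one_div]; exact Real.rpow_inv_rpow hb0 hr.ne'
    have hp1 : (1 : ℝ) ≤ (Fintype.card (U ⊕ V) : ℝ) ^ r := Real.one_le_rpow hUV hr.le
    have hmul : Real.log (2 / γ) * (Fintype.card (U ⊕ V) : ℝ) ^ r * D ≤ c * n := by
      have h1 := mul_le_mul_of_nonneg_right hpow (by positivity : 0 ≤ D * Real.log (2 / γ))
      rw [div_mul_cancel₀ _ (by positivity)] at h1
      linarith
    have hDn : D ≤ 2 * (c * n) := by
      have h1 : Real.log 2 * 1 * D ≤ Real.log (2 / γ) * (Fintype.card (U ⊕ V) : ℝ) ^ r * D := by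
        refine mul_le_mul_of_nonneg_right ?_ hD0'.le
        exact mul_le_mul hlog2 hp1 (by norm_num) hlog.le
      have h2 : (1 / 2 : ℝ) * D ≤ Real.log 2 * 1 * D :=
        mul_le_mul_of_nonneg_right (by linarith) hD0'.le
      linarith
    obtain ⟨k, hk⟩ : ∃ k : ℕ, k = ⌈1073741824 * (Real.log (2 / γ) *
      (Fintype.card (U ⊕ V) : ℝ) ^ r)⌉₊ := ⟨_, rfl⟩
    have hk1 : 1073741824 * (Real.log (2 / γ) * (Fintype.card (U ⊕ V) : ℝ) ^ r) ≤ k := by
      rw [hk]; exact Nat.le_ceil _
    have hk2 : (k : ℝ) < 1073741824 * (Real.log (2 / γ) *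
        (Fintype.card (U ⊕ V) : ℝ) ^ r) + 1 := by
      rw [hk]; exact Nat.ceil_lt_add_one (by positivity)
    have hkD : (k + 2) * D ≤ D0 := by
      have h2 : (((k + 2) * D : ℕ) : ℝ) ≤ D0 := by
        push_cast
        calc ((k : ℝ) + 2) * D ≤ (1073741824 * (Real.log (2 / γ) *
              (Fintype.card (U ⊕ V) : ℝ) ^ r) + 3) * D :=
              mul_le_mul_of_nonneg_right (by linarith) hD0'.le
          _ = 1073741824 * (Real.log (2 / γ) * (Fintype.card (U ⊕ V) : ℝ) ^ r * D) + 3 * D := by
              ring
          _ ≤ 1073741824 * (c * n) + 3 * (2 * (c * n)) := by linarith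
          _ ≤ c0 * n := by
              rw [hc0c]
              have : 0 ≤ c * n := by positivity
              linarith
          _ ≤ D0 := hD0
      exact_mod_cast h2
    have hDD : D ≤ D0 := by nlinarith
    have hmix := Pool.Agent.N625.US.mixed_comp1 hL enc henc hkD
    have hval := Pool.Agent.N625.US.value_comp hL F hF _ _ π ε enc P T g hT hv hDD
    obtain ⟨x, hx⟩ := Pool.Agent.TH522.UG.core (Pool.Agent.TH522.UG.hier_mixed (U ⊕ V) A) _ _ π
      r γ ε hr hr1 hγ hγ1 hε (by norm_num at hεγ ⊢; exact hεγ) k hk1 _ hmix hval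
    have h1 := hno (fun u => x (Sum.inl u)) (fun v => x (Sum.inr v))
    linarith
  · intro η l x hη hl hel hx hx1 hR hno
    by_contra hcon
    push Not at hcon
    obtain ⟨enc, P, hP, T, g, henc, hT, hv⟩ := hR
    have hx0 : 0 < x := by rw [hx]; positivity
    have hxl : x * l = 2 ^ 20 * η := by rw [hx]; field_simp
    have hηl : η ≤ l := by nlinarith
    have hlogx : 0 < Real.log (2 / x) := Real.log_pos (by rw [lt_div_iff₀ hx0]; linarith)
    obtain ⟨θ, hθ⟩ : ∃ θ : ℝ, θ = 9 * (x * Real.log (2 / x)) := ⟨_, rfl⟩
    have hθ0 : 0 < θ := by rw [hθ]; positivity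
    rw [← hθ, one_div] at hcon
    have hel1 : (1 : ℝ) ≤ Real.exp l := Real.one_le_exp hl.le
    have hb0 : (1 : ℝ) ≤ c * n / D := hel1.trans hel
    have hDn : (D : ℝ) ≤ c * n := by
      rw [le_div_iff₀ hD0'] at hb0
      linarith
    have hU : (Fintype.card U : ℝ) ^ θ ≤ c * n / D := by
      calc (Fintype.card U : ℝ) ^ θ ≤ ((c * n / D) ^ θ⁻¹) ^ θ :=
            Real.rpow_le_rpow (Nat.cast_nonneg _) hcon hθ0.le
        _ = _ := Real.rpow_inv_rpow (by linarith) hθ0.ne'
    have hcn : 0 ≤ c * n := by positivity
    rcases lt_or_ge (Fintype.card U : ℝ) (Real.exp l) with hsmall | hlarge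
    · -- few vertices
      have hkD : (Fintype.card U + 2) * D ≤ D0 := by
        have h2 : (((Fintype.card U + 2) * D : ℕ) : ℝ) ≤ D0 := by
          push_cast
          calc ((Fintype.card U : ℝ) + 2) * D ≤ (3 * (c * n / D)) * D :=
                mul_le_mul_of_nonneg_right (by linarith) hD0'.le
            _ = 3 * (c * n) := by field_simp
            _ ≤ c0 * n := by rw [hc0c]; linarith
            _ ≤ D0 := hD0
        exact_mod_cast h2
      have hDD : D ≤ D0 := by nlinarith
      have hmix := Pool.Agent.N625.US.mixed_comp1 hL enc henc hkD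
      have hval := Pool.Agent.N625.US.value_comp hL F hF _ _ π _ enc P T g hT hv hDD
      obtain ⟨f, g, hfg⟩ := Pool.Agent.N625.US.few s t π (Fintype.card U) _ hmix (by omega)
      have h1 := hno f g
      have h3 : Real.exp (-l) / 2 ^ 19 ≤ Real.exp (-η) := by
        have h4 : Real.exp (-l) ≤ Real.exp (-η) := Real.exp_le_exp.2 (by linarith)
        have h5 : Real.exp (-l) / 2 ^ 19 ≤ Real.exp (-l) :=
          div_le_self (Real.exp_pos _).le (by norm_num)
        linarith
      have h4 := mul_le_mul_of_nonneg_right h3 (Nat.cast_nonneg (Fintype.card E) : (0 : ℝ) ≤ _)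
      linarith
    · -- many vertices
      have hU0 : (0 : ℝ) < Fintype.card U := lt_of_lt_of_le (Real.exp_pos _) hlarge
      have hln : l ≤ Real.log (Fintype.card U) := by
        rw [Real.le_log_iff_exp_le hU0]
        exact hlarge
      obtain ⟨k, hk⟩ : ∃ k : ℕ, k = ⌈2 ^ 21 * (Fintype.card U : ℝ) ^ θ⌉₊ := ⟨_, rfl⟩
      have hk1 : 2 ^ 21 * (Fintype.card U : ℝ) ^ θ ≤ k := by rw [hk]; exact Nat.le_ceil _
      have hk2 : (k : ℝ) < 2 ^ 21 * (Fintype.card U : ℝ) ^ θ + 1 := by
        rw [hk]; exact Nat.ceil_lt_add_one (by positivity)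
      have hkD : (k + 2) * D ≤ D0 := by
        have h2 : (((k + 2) * D : ℕ) : ℝ) ≤ D0 := by
          push_cast
          calc ((k : ℝ) + 2) * D ≤ (2 ^ 21 * (c * n / D) + 3) * D :=
                mul_le_mul_of_nonneg_right (by linarith) hD0'.le
            _ = 2 ^ 21 * (c * n) + 3 * D := by field_simp
            _ ≤ c0 * n := by rw [hc0c]; linarith
            _ ≤ D0 := hD0
        exact_mod_cast h2
      have hDD : D ≤ D0 := by nlinarith
      have hmix := Pool.Agent.N625.US.mixed_comp1 hL enc henc hkD
      have hval := Pool.Agent.N625.US.value_comp hL F hF _ _ π _ enc P T g hT hv hDD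
      rw [sub_sub_cancel] at hval
      obtain ⟨f, g, hfg⟩ := Pool.Agent.N625.US.core s t π η l x hη hx hl hx1 hln k
        (by rw [← hθ]; exact hk1) _ hmix hval
      have h1 := hno f g
      linarith

end Pool.Agent.Results.MP_325f1f_lc.LocalReductions
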