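import Pool.Agent.N625.US.Conv

/-!
# Unique games: completeness `e ^ (-η)`, soundness `e ^ (-l)`, level `n ^ (O(x log (1/x)))`, `x = η/l`

For every unique game with any finite alphabet and any bipartite constraint graph, with `n` left
vertices: if the mixed hierarchy (Sherali-Adams together with the basic semidefinite program) has
at level `k ≥ 2 ^ 21 n ^ (9 x log (2 / x))`, `x = 2 ^ 20 η / l ≤ 1 / 2`, a solution of value at
least `e ^ (-η)`, then some labeling satisfies a fraction `e ^ (-l) / 2 ^ 19` of the edges. Here
`l ≤ log n`; for `l > log n` the fraction is less than `1 / n`.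

The bound does not depend on the alphabet. Its exponent depends only on the ratio of the logarithms
`η` and `l` of the completeness and the soundness. It tends to `0` both when the completeness tends
to one for fixed soundness (almost linearly in `η`) and when the soundness tends to zero for fixed
completeness (almost like `1 / l`).

Proof (`Pool/Agent/N625/US`, `Pool/Agent/TH522`): two steps over a common right vertex give a chain
with a nonnegative spectrum on the left vertices. A part on which the chain satisfies an inequality
from `L ^ p` to `L ^ 2`, `p = 2 / (1 + κ)`, `κ = l / (2 log n)`, costs a factor `n ^ (-2 κ) = e ^ (-l)`.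
On such a part the return probabilities decrease fast. If the energy of the vectors of the
relaxation is small (completeness near one) or bounded below by a constant, then local correlation
gives global correlation `n ^ (- O(x log (1/x)))`, and conditioning on that many labels makes the
labels of the part almost deterministic, or almost independent.
-/

namespace Pool.Agent.Results.MP_325f1f_lc.SmallSoundness

open Finset

/-- `f` depends only on the labels of the vertices in `S`. -/
def DependsOn {W A : Type} (S : Finset W) (f : (W → A) → ℝ) : Prop :=
  ∀ x y : W → A, (∀ w ∈ S, x w = y w) → f x = f y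

/-- `L` is a solution of level `k` of the mixed hierarchy: a normalised linear functional on the
functions of a labeling which is nonnegative on all nonnegative functions of at most `k + 2` labels
(Sherali-Adams), and such that after conditioning on at most `k` labels (the weight `g`) the matrix
of the pair moments is positive semidefinite (basic semidefinite program). Only the values of `L`
on functions of at most `k + 2` labels matter. -/
structure IsMixed {W A : Type} [Fintype W] (k : ℕ) (L : ((W → A) → ℝ) →ₗ[ℝ] ℝ) : Prop where
  one : L (fun _ => 1) = 1
  nonneg : ∀ S : Finset W, S.card ≤ k + 2 → ∀ f : (W → A) → ℝ, DependsOn S f → (∀ x, 0 ≤ f x) →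
    0 ≤ L f
  psd : ∀ S : Finset W, S.card ≤ k → ∀ g : (W → A) → ℝ, DependsOn S g → (∀ x, 0 ≤ g x) →
    ∀ c : W → A → ℝ, 0 ≤ L (fun x => g x * (∑ w, c w (x w)) ^ 2)

/-- For every unique game with left vertices `U`, right vertices `V`, alphabet `A` and edges `E`
(`e` joins `s e` and `t e` and has the constraint that the label of `t e` is `π e` of the label of
`s e`), all `η > 0` and `0 < l ≤ log |U|` with `x = 2 ^ 20 η / l ≤ 1 / 2`: if level
`k ≥ 2 ^ 21 |U| ^ (9 x log (2 / x))` of the mixed hierarchy has a solution of value at least
`e ^ (-η)`, then some labeling satisfies at least a fraction `e ^ (-l) / 2 ^ 19` of the edges. -/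
theorem result (U V A E : Type) [Fintype U] [Fintype V] [Fintype A] [DecidableEq A] [Fintype E]
    (s : E → U) (t : E → V) (π : E → Equiv.Perm A) (η l x : ℝ) (k : ℕ)
    (L : ((U ⊕ V → A) → ℝ) →ₗ[ℝ] ℝ)
    (hη : 0 < η) (hl : 0 < l) (hlU : l ≤ Real.log (Fintype.card U))
    (hx : x = 2 ^ 20 * η / l) (hx1 : x ≤ 1 / 2)
    (hk : 2 ^ 21 * (Fintype.card U : ℝ) ^ (9 * (x * Real.log (2 / x))) ≤ k)
    (hL : IsMixed k L)
    (hval : Real.exp (-η) * (Fintype.card E : ℝ) ≤
      ∑ e, L (fun z => if π e (z (Sum.inl (s e))) = z (Sum.inr (t e)) then 1 else 0)) :
    ∃ (f : U → A) (g : V → A), Real.exp (-l) / 2 ^ 19 * (Fintype.card E : ℝ) ≤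
      ((univ.filter fun e => π e (f (s e)) = g (t e)).card : ℝ) :=
  Pool.Agent.N625.US.core s t π η l x hη hx hl hx1 hlU k hk L ⟨hL.one, hL.nonneg, hL.psd⟩ hval

end Pool.Agent.Results.MP_325f1f_lc.SmallSoundness
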